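import Pool.Agent.Y323.CH.Kill
import Pool.Agent.Y323.CH.Inf
import Pool.Agent.Y323.CH.Stmt

/-!
# The diagonal tori see almost nothing of the central algebra

The quantum group is the 2-cocycle twist of `SO(3) × SO(3) × SO(3)` of the earlier result
`CharacterCounterexample`.  Its whole central algebra is identified with the continuous functions on
a cube, and all the elements which correspond to functions vanishing on the null set where some
coordinate is `0`, `1` or `4` are killed by all the spun diagonal tori.
-/

namespace Pool.Agent.Results.MP_96eab8_al.WholeCentralAlgebra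

open Pool.Agent.W444.QG Pool.Agent.Y323.CH

/-- There is a connected closed quantum subgroup `G ⊂ U_12⁺` (with `C(G)` the full C*-algebra of `G`)
and an isometric unital `*`-homomorphism `Θ` from `C([0,4]³)` onto the central algebra
`C(G)_central` such that `π_Q(Θ(g)) = 0` for every spinning matrix `Q ∈ U_12` and every continuous
function `g` which vanishes at all the points of the cube with a coordinate in `{0, 1, 4}`.
In particular the space of the elements of `C(G)_central` killed by all the `π_Q` has infinite
dimension. -/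
theorem result : ∃ G : ClosedSubgroup 12, G.IsFull ∧ G.IsConnected ∧
    (∃ Θ : CubeHom G, Θ.IsIsoOntoCentral ∧
      ∀ g, (∀ x, OnWall x → g x = 0) → IsInvisible G (Θ.app g)) ∧
    ∀ n : ℕ, ∃ P : Fin n → G.C, LinearIndependent ℂ P ∧
      ∀ j, P j ∈ G.central ∧ IsInvisible G (P j) := by
  obtain ⟨Θ, h1, h2, h3⟩ := Pool.Agent.Y323.CH.main
  refine ⟨Pool.Agent.W444.CC.QG, Pool.Agent.W444.CC.isFull, Pool.Agent.W444.CC.connected,
    ⟨Θ, ⟨h1, h2⟩, h3⟩, fun n => ⟨fun j => Θ (Pool.Agent.Y323.CH.gX j),
      Pool.Agent.Y323.CH.theta_indep Θ h1 n, fun j => ⟨?_, ?_⟩⟩⟩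
  · rw [← h2]
    exact ⟨_, rfl⟩
  · exact h3 _ fun x hx => Pool.Agent.Y323.CH.gX_zero _ x hx

end Pool.Agent.Results.MP_96eab8_al.WholeCentralAlgebra
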